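import Pool.Agent.Q206.Asy.NegFinal
import Pool.Agent.Q206.Asy.Pos

/-!
# Functions versus sets in the asymptotic-computation degrees

The eight reducibilities `NC, UC, NED, UED, NG, UG, ND, UD` and `EquivSet` are defined in
`Pool.Agent.Q206.Asy.Defs` (densities in `Pool.Agent.Q206.Asy.Density`).
-/

namespace Pool.Agent.Results.MP_106a28_lc.EightReducibilities

open Q206.Asy

/-- Every function `g : ℕ → ℕ` is `r`-equivalent to a set exactly for the two coarse
reducibilities `r = nc` and `r = uc`.  For the six other reducibilities one and the same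
function `g` is not `r`-equivalent to any set. -/
theorem result :
    (∀ r : Red, (∀ g : ℕ → ℕ, EquivSet r g) ↔ (r = Red.nc ∨ r = Red.uc)) ∧
      ∃ g : ℕ → ℕ, ∀ r : Red, r ≠ Red.nc → r ≠ Red.uc → ¬ EquivSet r g := by
  obtain ⟨g, hg⟩ := exists_g
  have hneg : ∀ r : Red, r ≠ Red.nc → r ≠ Red.uc → ¬ EquivSet r g := by
    rintro r h1 h2 ⟨A, hA1, hA2⟩
    obtain ⟨h3, h4, h5⟩ := hg A
    cases r with
    | nc => exact h1 rfl
    | uc => exact h2 rfl
    | ned => exact h3 ⟨hA1, hA2⟩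
    | ued => exact h3 ⟨UED.ned hA1, UED.ned hA2⟩
    | ng => exact h4 ⟨hA1, hA2⟩
    | ug => exact h4 ⟨UG.ng hA1, UG.ng hA2⟩
    | nd => exact h5 ⟨hA1, hA2⟩
    | ud => exact h5 ⟨UD.nd hA1, UD.nd hA2⟩
  refine ⟨fun r => ⟨fun h => ?_, ?_⟩, g, hneg⟩
  · by_contra hcon
    push Not at hcon
    exact hneg r hcon.1 hcon.2 (h g)
  · rintro (rfl | rfl) g'
    · obtain ⟨A, h1, h2⟩ := equivSet_uc g'
      exact ⟨A, UC.nc h1, UC.nc h2⟩
    · obtain ⟨A, h1, h2⟩ := equivSet_uc g'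
      exact ⟨A, h1, h2⟩

end Pool.Agent.Results.MP_106a28_lc.EightReducibilities
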